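import Pool.Agent.helper83.SB.Spec
import Pool.Agent.helper18.SC.CH2
import Pool.Agent.helper33.SC.UD

/-!
# MP_d2d7b9_gt, bridge (prefix sb:): row MSR (joint integrability of the selected values)
-/

open scoped Pointwise ContDiff
open MeasureTheory Set Filter Topology

namespace Pool.Agent.helper83.SB

open Pool.Agent.helper83.SC

theorem MSR_sel_iff {m : ℕ} (hU : UNQ_stmt)
    (b : OrthonormalBasis (Fin (m + 1)) ℝ (E (m + 1))) {K : Set (E (m + 1))} (hK : IsBody K)
    (φ : E m → ℝ) {t : ℝ} (ht : 0 < t) (p : E m) {c : ℝ} (hc : 0 < c) :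
    c ≤ sel φ (ft b K t) p ↔ ∃ y, c ≤ φ y ∧ IsArgmin (ft b K t) p y := by
  constructor
  · intro h
    by_cases hne : {y | IsArgmin (ft b K t) p y}.Nonempty
    · obtain ⟨y, hy⟩ := hne
      have hs : {y | IsArgmin (ft b K t) p y} = {y} := by
        ext z
        simp only [mem_ofPred_eq, mem_singleton_iff]
        refine ⟨fun hz => hU b hK t ht p z y hz hy, fun hz => ?_⟩
        rw [hz]; exact hy
      refine ⟨y, ?_, hy⟩
      unfold sel at h
      rw [hs, image_singleton, csSup_singleton] at h
      exact h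
    · exfalso
      rw [not_nonempty_iff_eq_empty] at hne
      unfold sel at h
      rw [hne, image_empty, Real.sSup_empty] at h
      linarith
  · rintro ⟨y, hy, hyA⟩
    have hs : {y | IsArgmin (ft b K t) p y} = {y} := by
      ext z
      simp only [mem_ofPred_eq, mem_singleton_iff]
      refine ⟨fun hz => hU b hK t ht p z y hz hyA, fun hz => ?_⟩
      rw [hz]; exact hyA
    unfold sel
    rw [hs, image_singleton, csSup_singleton]
    exact hy

theorem MSR_ft_cont {m : ℕ} (hP : PTC_stmt)
    (b : OrthonormalBasis (Fin (m + 1)) ℝ (E (m + 1))) {K : Set (E (m + 1))} (hK : IsBody K) :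
    Continuous (fun q : ℝ × E m => ft b K q.1 q.2) := by
  have h1 : Continuous (chart b K) := UD_continuous (chart_CV_of b hK)
  have h2 : Continuous (emb b) := (hP b).2.2.2.2.2.1
  unfold ft
  exact (h1.comp continuous_snd).add (continuous_fst.mul (h2.comp continuous_snd).norm)

theorem MSR_proj {X Y : Type*} [TopologicalSpace X] [TopologicalSpace Y] {Z : Set X}
    (hZ : IsCompact Z) {P : Set (X × Y)} (hP : IsClosed P) :
    IsClosed {q : Y | ∃ y ∈ Z, (y, q) ∈ P} := by
  have : CompactSpace Z := isCompact_iff_compactSpace.mp hZ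
  have hf : Continuous (fun x : Z × Y => ((x.1 : X), x.2)) := by fun_prop
  have h1 := (isClosedMap_snd_of_compactSpace (X := Z) (Y := Y)) _ (hP.preimage hf)
  have e2 : Prod.snd '' ((fun x : Z × Y => ((x.1 : X), x.2)) ⁻¹' P)
      = {q : Y | ∃ y ∈ Z, (y, q) ∈ P} := by
    ext q
    constructor
    · rintro ⟨x, hx, rfl⟩
      exact ⟨x.1, x.1.2, hx⟩
    · rintro ⟨y, hy, hyA⟩
      exact ⟨(⟨y, hy⟩, q), hyA, rfl⟩
  rw [e2] at h1
  exact h1

theorem MSR_closed {m : ℕ} (hP : PTC_stmt)
    (b : OrthonormalBasis (Fin (m + 1)) ℝ (E (m + 1))) {K : Set (E (m + 1))} (hK : IsBody K)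
    {φ : E m → ℝ} (hφ : Test φ) {c : ℝ} (hc : 0 < c) :
    IsClosed {q : E m × ℝ | ∃ y, c ≤ φ y ∧ IsArgmin (ft b K q.2) q.1 y} := by
  have hft := MSR_ft_cont hP b hK
  have hφc : Continuous φ := hφ.1.continuous
  have hZc : IsClosed {y | c ≤ φ y} := isClosed_le continuous_const hφc
  have hZ : IsCompact {y | c ≤ φ y} := by
    refine hφ.2.1.isCompact.of_isClosed_subset hZc ?_
    intro y hy
    refine subset_tsupport φ ?_
    rw [Function.mem_support]
    have : c ≤ φ y := hy
    linarith
  have hcl : IsClosed {x : E m × (E m × ℝ) | ∀ z : E m,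
      ft b K x.2.2 x.1 - inner ℝ x.2.1 x.1 ≤ ft b K x.2.2 z - inner ℝ x.2.1 z} := by
    have e1 : {x : E m × (E m × ℝ) | ∀ z : E m,
      ft b K x.2.2 x.1 - inner ℝ x.2.1 x.1 ≤ ft b K x.2.2 z - inner ℝ x.2.1 z}
      = ⋂ z : E m, {x : E m × (E m × ℝ) |
      ft b K x.2.2 x.1 - inner ℝ x.2.1 x.1 ≤ ft b K x.2.2 z - inner ℝ x.2.1 z} := by
      ext x; simp
    rw [e1]
    refine isClosed_iInter fun z => isClosed_le ?_ ?_
    · refine Continuous.sub ?_ ?_
      · have h3 : Continuous (fun x : E m × (E m × ℝ) => (x.2.2, x.1)) := by fun_prop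
        have h4 := hft.comp h3
        simp only [Function.comp_def] at h4
        exact h4
      · exact (continuous_fst.comp continuous_snd).inner continuous_fst
    · refine Continuous.sub ?_ ?_
      · have h3 : Continuous (fun x : E m × (E m × ℝ) => (x.2.2, z)) := by fun_prop
        have h4 := hft.comp h3
        simp only [Function.comp_def] at h4
        exact h4
      · exact (continuous_fst.comp continuous_snd).inner continuous_const
  exact MSR_proj hZ hcl

theorem MSR_of (hP : PTC_stmt) (hU : UNQ_stmt) : MSR_stmt := by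
  intro m b K hK φ hφ ε hε hε1
  set g : E m × ℝ → ℝ := fun q => sel φ (ft b K q.2) q.1 with hg
  set g' : E m × ℝ → ℝ := fun q => if 0 < q.2 then g q else 0 with hg'
  have hφ0 : ∀ y, 0 ≤ φ y := hφ.2.2
  have hg0 : ∀ q, 0 ≤ g q := by
    intro q
    refine Real.sSup_nonneg ?_
    rintro x ⟨y, _, rfl⟩
    exact hφ0 y
  -- measurability
  have hpos : MeasurableSet {q : E m × ℝ | 0 < q.2} := measurableSet_lt measurable_const measurable_snd
  have hmeas : Measurable g' := by
    refine measurable_of_Ici fun c => ?_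
    rcases le_or_gt c 0 with hc | hc
    · have : g' ⁻¹' Ici c = univ := by
        ext q
        simp only [mem_preimage, mem_Ici, mem_univ, iff_true, hg']
        split_ifs
        · exact hc.trans (hg0 q)
        · exact hc
      rw [this]; exact MeasurableSet.univ
    · have : g' ⁻¹' Ici c = {q : E m × ℝ | 0 < q.2} ∩
          {q : E m × ℝ | ∃ y, c ≤ φ y ∧ IsArgmin (ft b K q.2) q.1 y} := by
        ext q
        simp only [mem_preimage, mem_Ici, mem_inter_iff, mem_ofPred_eq, hg']
        by_cases hq : 0 < q.2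
        · rw [if_pos hq]
          simp only [hq, true_and]
          exact MSR_sel_iff hU b hK φ hq q.1 hc
        · rw [if_neg hq]
          simp only [hq, false_and, iff_false, not_le]
          exact hc
      rw [this]
      exact hpos.inter (MSR_closed hP b hK hφ hc).measurableSet
  -- bounds
  obtain ⟨M, hM⟩ := hφ.2.1.exists_bound_of_continuous hφ.1.continuous
  have hM0 : 0 ≤ M := (norm_nonneg _).trans (hM 0)
  obtain ⟨R, hR⟩ := hφ.2.1.isCompact.isBounded.exists_norm_le
  obtain ⟨C, hC0, hC⟩ := subgr_bdd_of (chart_CV_of b hK) (hP b).2.2.2.2.2.2.1 R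
  have hbd : ∀ q : E m × ℝ, 0 < q.2 → q.2 ≤ 1 → g q ≤ M ∧ (C < ‖q.1‖ → g q = 0) := by
    intro q hq0 hq1
    constructor
    · refine Real.sSup_le ?_ hM0
      rintro x ⟨y, _, rfl⟩
      exact (le_abs_self _).trans (hM y)
    · intro hCq
      by_contra hne
      have hpos' : 0 < g q := lt_of_le_of_ne (hg0 q) (Ne.symm hne)
      obtain ⟨y, hy, hyA⟩ := (MSR_sel_iff hU b hK φ hq0 q.1 hpos').mp le_rfl
      have hy' : y ∈ tsupport φ := by
        refine subset_tsupport φ ?_
        rw [Function.mem_support]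
        exact (hpos'.trans_le hy).ne'
      have := hC q.2 hq0.le hq1 q.1 y (hR y hy') hyA
      linarith
  -- integrability
  have hres : ∀ᵐ q : E m × ℝ ∂((volume : Measure (E m)).prod (volume.restrict (Ioc (0 : ℝ) ε))),
      0 < q.2 ∧ q.2 ≤ 1 := by
    have e : (volume : Measure (E m)).prod (volume.restrict (Ioc (0 : ℝ) ε))
        = ((volume : Measure (E m)).prod volume).restrict (univ ×ˢ Ioc (0 : ℝ) ε) := by
      rw [← Measure.prod_restrict, Measure.restrict_univ]
    rw [e]
    refine (ae_restrict_iff' (MeasurableSet.univ.prod measurableSet_Ioc)).mpr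
      (Eventually.of_forall fun q hq => ?_)
    exact ⟨hq.2.1, hq.2.2.trans hε1⟩
  have hint : Integrable (fun q : E m × ℝ =>
      (Metric.closedBall (0 : E m) C ×ˢ (univ : Set ℝ)).indicator (fun _ => M) q)
      ((volume : Measure (E m)).prod (volume.restrict (Ioc (0 : ℝ) ε))) := by
    refine (integrable_indicator_iff
      (Metric.isClosed_closedBall.measurableSet.prod MeasurableSet.univ)).mpr ?_
    refine integrableOn_const ?_ enorm_ne_top
    rw [Measure.prod_prod, Measure.restrict_apply MeasurableSet.univ, univ_inter, Real.volume_Ioc]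
    exact ENNReal.mul_ne_top (isCompact_closedBall _ _).measure_lt_top.ne ENNReal.ofReal_ne_top
  have hg'int : Integrable g' ((volume : Measure (E m)).prod (volume.restrict (Ioc (0 : ℝ) ε))) := by
    refine hint.mono' hmeas.aestronglyMeasurable ?_
    filter_upwards [hres] with q hq
    have h1 := hbd q hq.1 hq.2
    have e : g' q = g q := if_pos hq.1
    rw [e, Real.norm_eq_abs, abs_of_nonneg (hg0 q)]
    by_cases hqC : ‖q.1‖ ≤ C
    · rw [indicator_of_mem]
      · exact h1.1
      · exact ⟨by simpa using hqC, mem_univ _⟩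
    · rw [indicator_of_notMem]
      · exact (h1.2 (lt_of_not_ge hqC)).le
      · intro h
        exact hqC (by simpa using h.1)
  refine hg'int.congr ?_
  filter_upwards [hres] with q hq
  exact if_pos hq.1

end Pool.Agent.helper83.SB
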